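import Pool.Agent.V11106.Nil9

/-!
MP_33f427_an, Q1: full positive answer.

For every `R_e`-sequence `A` and every minimal nilsystem `(G/Γ, x ↦ a x)` there is a point whose
orbit along `A` is dense.
-/

namespace Pool.Agent.Results.MP_33f427_an.DenseOrbits

open scoped Manifold ContDiff
open Pool.Agent.V11106

/-- Let `G` be a nilpotent Lie group (real, finite-dimensional, Hausdorff, smooth; not assumed
connected), `Γ` a discrete cocompact subgroup and `a ∈ G` such that `x ↦ a x` is minimal on
`G/Γ`. Then for every `R_e`-sequence `A` some point of `G/Γ` has a dense orbit along `A`. -/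
theorem result {E : Type*} [NormedAddCommGroup E] [NormedSpace ℝ E] [FiniteDimensional ℝ E]
    {G : Type} [TopologicalSpace G] [T2Space G] [ChartedSpace E G] [Group G]
    [LieGroup 𝓘(ℝ, E) ∞ G] [Group.IsNilpotent G]
    (Γ : Subgroup G) [DiscreteTopology Γ] [CompactSpace (G ⧸ Γ)]
    (a : G) (hmin : IsMinimalMap (fun x : G ⧸ Γ => a • x))
    (A : Set ℕ) (hA : IsReSequence A) :
    ∃ y : G ⧸ Γ, Dense {z : G ⧸ Γ | ∃ n ∈ A, z = (fun x : G ⧸ Γ => a • x)^[n] y} := by
  have hG : IsTopologicalGroup G := topologicalGroup_of_lieGroup 𝓘(ℝ, E) ∞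
  have hcl : IsClosed (Γ : Set G) := Subgroup.isClosed_of_discrete
  have hT2 : T2Space (G ⧸ Γ) := QuotientGroup.instT2Space
  have hsc : SecondCountableTopology (G ⧸ Γ) := secondCountable_quotient E Γ
  have hc : CompleteSpace E := FiniteDimensional.complete ℝ E
  have hroot := rooted_nhds (E := E) (G := G)
  have hmin' : ∀ v : G ⧸ Γ, Dense {z : G ⧸ Γ | ∃ n : ℕ, 1 ≤ n ∧ z = a ^ n • v} := by
    intro v
    have := hmin v
    simpa only [smul_iterate] using this
  obtain ⟨y, hy⟩ := exists_dense_of_rooted_nhds hA Γ hroot a hmin'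
  refine ⟨y, ?_⟩
  simpa only [smul_iterate] using hy

end Pool.Agent.Results.MP_33f427_an.DenseOrbits
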